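import Pool.Agent.Helper45.CF.GoalsD

/-!
# Project CF (MP_d97caa_an), packet ZCX: theories vanish on separable unital commutative
C*-algebras
-/

set_option autoImplicit false

open scoped ComplexOrder Topology
open TopologicalSpace Filter

namespace Pool.Agent.Helper35.CF2

open Pool.Agent.Helper34.CAR Pool.Agent.Helper39.CR Pool.Agent.Helper45.CF
open Pool.Agent.Helper13.CF2

noncomputable section

/-- the inclusion of a subset of the Hilbert cube. -/
def inS (S : Set (ℕ → unitInterval)) : C(S, ℕ → unitInterval) :=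
  ⟨Subtype.val, continuous_subtype_val⟩

/-- ideals of functions vanishing on the range are kernels of the restriction maps. -/
theorem ker_pull {X Q : Type} [TopologicalSpace X] [CompactSpace X] [TopologicalSpace Q]
    [CompactSpace Q] (e : C(X, Q)) (a : C(Q, ℂ)) :
    pull ℂ e a = 0 ↔ a ∈ Set.range (vinc ℂ e) := by
  constructor
  · intro h
    exact ⟨⟨a, fun x => DFunLike.congr_fun h x⟩, rfl⟩
  · rintro ⟨f, rfl⟩
    ext x
    exact f.2 x

/-- the map between ideals of functions. -/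
def vmap {X Y Q : Type} [TopologicalSpace X] [CompactSpace X] [TopologicalSpace Y]
    [CompactSpace Y] [TopologicalSpace Q] [CompactSpace Q] (e : C(X, Q)) (d : C(Y, Q))
    (h : ∀ y, ∃ x, e x = d y) : van ℂ e →⋆ₙₐ[ℂ] van ℂ d where
  toFun f := ⟨f.1, fun y => by
    obtain ⟨x, hx⟩ := h y
    rw [← hx]
    exact f.2 x⟩
  map_smul' _ _ := rfl
  map_zero' := rfl
  map_add' _ _ := rfl
  map_mul' _ _ := rfl
  map_star' _ := rfl

/-- the cut-off factor. -/
def cutf {Q : Type} [TopologicalSpace Q] (f : C(Q, ℂ)) (ε : ℝ) (hε : 0 < ε) : C(Q, ℂ) where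
  toFun q := ((max 0 (‖f q‖ - ε) / max ‖f q‖ ε : ℝ) : ℂ)
  continuous_toFun := by
    refine Complex.continuous_ofReal.comp ?_
    refine Continuous.div ?_ ?_ ?_
    · exact continuous_const.max (f.continuous.norm.sub continuous_const)
    · exact f.continuous.norm.max continuous_const
    · intro q
      exact (lt_of_lt_of_le hε (le_max_right _ _)).ne'

theorem cutf_zero {Q : Type} [TopologicalSpace Q] (f : C(Q, ℂ)) (ε : ℝ) (hε : 0 < ε) (q : Q)
    (hq : ‖f q‖ ≤ ε) : cutf f ε hε q = 0 := by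
  change ((max 0 (‖f q‖ - ε) / max ‖f q‖ ε : ℝ) : ℂ) = 0
  rw [max_eq_left (by linarith), zero_div, Complex.ofReal_zero]

theorem cutf_near {Q : Type} [TopologicalSpace Q] (f : C(Q, ℂ)) (ε : ℝ) (hε : 0 < ε) (q : Q) :
    ‖f q - cutf f ε hε q * f q‖ ≤ ε := by
  by_cases hq : ‖f q‖ ≤ ε
  · rw [cutf_zero f ε hε q hq, zero_mul, sub_zero]
    exact hq
  · have hq' : ε < ‖f q‖ := not_le.1 hq
    have h0 : (0 : ℝ) < ‖f q‖ := hε.trans hq'
    have h1 : cutf f ε hε q = (((‖f q‖ - ε) / ‖f q‖ : ℝ) : ℂ) := by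
      change ((max 0 (‖f q‖ - ε) / max ‖f q‖ ε : ℝ) : ℂ) = _
      rw [max_eq_right (by linarith), max_eq_left hq'.le]
    have h2 : f q - cutf f ε hε q * f q = ((ε / ‖f q‖ : ℝ) : ℂ) * f q := by
      have h3 : (1 : ℂ) - (((‖f q‖ - ε) / ‖f q‖ : ℝ) : ℂ) = ((ε / ‖f q‖ : ℝ) : ℂ) := by
        rw [← Complex.ofReal_one, ← Complex.ofReal_sub]
        congr 1
        field_simp
        ring
      rw [h1, ← h3]
      ring
    rw [h2, norm_mul, Complex.norm_real, Real.norm_of_nonneg (by positivity),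
      div_mul_cancel₀ _ h0.ne']

/-- **ZCX** -/
theorem t (hE : S_EMX) (hA : S_APX) (hF : S_FUB) : S_ZCX := by
  intro T X _ _ _ _
  obtain ⟨e, he⟩ := hE X
  have hcl : IsClosed (Set.range e) := (isCompact_range e.continuous).isClosed
  obtain ⟨K, hK, hanti, hK0⟩ := hA (Set.range e) hcl
  have hKcl : ∀ n, IsClosed (K n) := by
    intro n
    obtain ⟨m, a, b, h⟩ := hK n
    rw [h]
    exact isClosed_iUnion_of_finite fun i => isClosed_Icc
  have hKc : ∀ n, CompactSpace ↥(K n) := fun n =>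
    isCompact_iff_compactSpace.1 (hKcl n).isCompact
  have hKz : ∀ n, T.Zero C(↥(K n), ℂ) := by
    intro n
    obtain ⟨m, a, b, h⟩ := hK n
    have key : ∀ (S : Set (ℕ → unitInterval)) [CompactSpace S],
        S = ⋃ i, Set.Icc (a i) (b i) → T.Zero C(S, ℂ) := by
      rintro S _ rfl
      exact hF T m a b
    exact key (K n) h
  have hQ : T.Zero C(ℕ → unitInterval, ℂ) := c_ZQ T
  have hJn : ∀ n, T.Zero (van ℂ (inS (K n))) := by
    intro n
    exact zero_ideal T (vinc ℂ (inS (K n))) (pull ℂ (inS (K n))) (fun a b h => Subtype.ext h)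
      (c_TIE ↥(K n) (ℕ → unitInterval) ℂ (inS (K n)) Subtype.val_injective)
      (ker_pull (inS (K n))) hQ (hKz n)
  have hrange : ∀ n x, e x ∈ K n := by
    intro n x
    have h1 : e x ∈ ⋂ n, K n := by
      rw [hK0]
      exact ⟨x, rfl⟩
    exact Set.mem_iInter.1 h1 n
  let j : ∀ n, van ℂ (inS (K n)) →⋆ₙₐ[ℂ] van ℂ (inS (K (n + 1))) := fun n =>
    vmap (inS (K n)) (inS (K (n + 1))) fun y => ⟨⟨y.1, hanti (Nat.le_succ n) y.2⟩, rfl⟩
  let u : ∀ n, van ℂ (inS (K n)) →⋆ₙₐ[ℂ] van ℂ e := fun n =>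
    vmap (inS (K n)) e fun x => ⟨⟨e x, hrange n x⟩, rfl⟩
  have hdense : Dense (⋃ n, Set.range (u n)) := by
    rw [Metric.dense_iff]
    intro f r hr
    have hε : 0 < r / 2 := by positivity
    have hU : IsOpen {q : ℕ → unitInterval | ‖f.1 q‖ < r / 2} :=
      isOpen_lt f.1.continuous.norm continuous_const
    obtain ⟨n, hn⟩ := exists_subset_nhds_of_isCompact' (V := K)
      (directed_of_isDirected_le fun a b hab => hanti hab)
      (fun n => (hKcl n).isCompact) hKcl (U := {q : ℕ → unitInterval | ‖f.1 q‖ < r / 2}) (by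
        intro q hq
        rw [hK0] at hq
        obtain ⟨x, rfl⟩ := hq
        refine hU.mem_nhds ?_
        have h1 : f.1 (e x) = 0 := f.2 x
        change ‖f.1 (e x)‖ < r / 2
        rw [h1, norm_zero]
        exact hε)
    let g : C(ℕ → unitInterval, ℂ) := cutf f.1 (r / 2) hε * f.1
    have hg : ∀ y : K n, g (inS (K n) y) = 0 := by
      intro y
      change cutf f.1 (r / 2) hε y.1 * f.1 y.1 = 0
      rw [cutf_zero f.1 (r / 2) hε y.1 (le_of_lt (hn y.2)), zero_mul]
    refine ⟨u n ⟨g, hg⟩, ?_, Set.mem_iUnion.2 ⟨n, ⟨_, rfl⟩⟩⟩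
    rw [Metric.mem_ball, dist_comm]
    refine lt_of_le_of_lt ?_ (half_lt_self hr)
    change dist f.1 g ≤ r / 2
    rw [dist_eq_norm, ContinuousMap.norm_le _ hε.le]
    intro q
    exact cutf_near f.1 (r / 2) hε q
  have hJ : T.Zero (van ℂ e) :=
    zero_union T (van ℂ e) (fun n => van ℂ (inS (K n))) j u
      (fun n a b h => Subtype.ext (congrArg (fun z => z.1) h)) (fun n b => rfl) hdense hJn
  intro i x
  have hb := bij_of_ext T i (vinc ℂ e) (pull ℂ e) (fun a b h => Subtype.ext h)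
    (c_TIE X (ℕ → unitInterval) ℂ e he) (ker_pull e) hJ
  apply hb.1
  rw [hQ i (T.map i (pull ℂ e) x), map_zero]

end

end Pool.Agent.Helper35.CF2
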